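import Pool.Agent.Helper2.SV.GoalsP
import Pool.Agent.Helper2.SV.GoalsF

/-!
# Project SV, packet S4: `X+` is complete to everything outside `X`
-/

set_option autoImplicit false

namespace Pool.Agent.Helper56.SV

open Pool.Agent.Helper2.SV

variable {V : Type}

lemma cases_QXYZ (G : SimpleGraph V) (Q : Set V) (w : V) :
    w ∈ Q ∨ w ∈ Xs G Q ∨ w ∈ Ys G Q ∨ w ∈ Zs G Q := by
  by_cases hQ : w ∈ Q
  · exact Or.inl hQ
  · by_cases hX : ∀ q ∈ Q, G.Adj w q
    · exact Or.inr (Or.inl ⟨hQ, hX⟩)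
    · by_cases hY : ∀ q ∈ Q, ¬ G.Adj w q
      · exact Or.inr (Or.inr (Or.inl ⟨hQ, hY⟩))
      · push Not at hX hY
        obtain ⟨q, hq, hwq⟩ := hX
        obtain ⟨q', hq', hwq'⟩ := hY
        exact Or.inr (Or.inr (Or.inr ⟨hQ, ⟨q', hq', hwq'⟩, ⟨q, hq, hwq⟩⟩))

/-- `k` can be reached from `v` inside `Y`. -/
def Reach (G : SimpleGraph V) (Y : Set V) (v k : V) : Prop :=
  Relation.ReflTransGen (fun a b => G.Adj a b ∧ b ∈ Y) v k

lemma Reach.memY {G : SimpleGraph V} {Y : Set V} {v k : V} (hv : v ∈ Y) (h : Reach G Y v k) :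
    k ∈ Y := by
  unfold Reach at h
  induction h with
  | refl => exact hv
  | tail _ h _ => exact h.2

/-- A vertex `x` whose adjacency is transported along the edges of `Y` is adjacent to `v` when it
is adjacent to a vertex which can be reached from `v`. -/
lemma Reach.back {G : SimpleGraph V} {Y : Set V} {v k x : V} (hv : v ∈ Y)
    (hx : ∀ y ∈ Y, ∀ y' ∈ Y, G.Adj x y → G.Adj y y' → G.Adj x y')
    (h : Reach G Y v k) : G.Adj x k → G.Adj x v := by
  unfold Reach at h
  induction h with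
  | refl => exact id
  | @tail b c hb hbc ih =>
    intro hxc
    have hbY : b ∈ Y := Reach.memY hv hb
    exact ih (hx c hbc.2 b hbY hxc hbc.1.symm)

lemma Reach.forth {G : SimpleGraph V} {Y : Set V} {v k x : V} (hv : v ∈ Y)
    (hx : ∀ y ∈ Y, ∀ y' ∈ Y, G.Adj x y → G.Adj y y' → G.Adj x y')
    (h : Reach G Y v k) : G.Adj x v → G.Adj x k := by
  unfold Reach at h
  induction h with
  | refl => exact id
  | @tail b c hb hbc ih =>
    intro hxv
    have hbY : b ∈ Y := Reach.memY hv hb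
    exact hx b hbY c hbc.2 (ih hxv) hbc.1

theorem goalS4 (hMI : G_MI) (hS3 : G_S3) (hLD : G_LD) : G_S4 := by
  intro V _ G Q hP hF hQ x hx v hv
  obtain ⟨-, -, -, hcocon, htwo⟩ := hMI.2 V G Q hQ
  obtain ⟨hA, hB, hC⟩ := hS3 V G Q hF hQ
  have h2 : ∃ a ∈ Q, ∃ b ∈ Q, a ≠ b := by
    by_contra hcon
    push Not at hcon
    by_cases hne : ∃ a, a ∈ Q
    · obtain ⟨a, ha⟩ := hne
      refine htwo {a} {a} (clq_singleton G a) (clq_singleton G a) ?_
      intro b hb
      exact Or.inl (hcon b hb a ha)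
    · refine htwo ∅ ∅ (clq_empty G) (clq_empty G) ?_
      intro b hb
      exact absurd ⟨b, hb⟩ hne
  have hvY : v ∈ Q ∨ v ∈ Zs G Q ∨ v ∈ Ys G Q := by
    rcases cases_QXYZ G Q v with h | h | h | h
    · exact Or.inl h
    · exact absurd h hv
    · exact Or.inr (Or.inr h)
    · exact Or.inr (Or.inl h)
  rcases hvY with hvQ | hvZ | hvY
  · exact hx.1.2 v hvQ
  · exact hB x hx v hvZ
  by_contra hxv
  have hKY : ∀ k, Reach G (Ys G Q) v k → k ∈ Ys G Q := fun k hk => Reach.memY hvY hk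
  have hKx : ∀ k, Reach G (Ys G Q) v k → ¬ G.Adj x k := fun k hk hxk =>
    hxv (Reach.back hvY (hA x hx.1) hk hxk)
  have hKZ : ∀ k, Reach G (Ys G Q) v k → ∀ z ∈ Zs G Q, ¬ G.Adj z k := fun k hk z hz hzk =>
    hKx k hk (hC x hx k (hKY k hk) z hz hzk)
  have hhom : ∀ w, w ∉ {k | Reach G (Ys G Q) v k} →
      (∀ k ∈ {k | Reach G (Ys G Q) v k}, G.Adj w k) ∨
      (∀ k ∈ {k | Reach G (Ys G Q) v k}, ¬ G.Adj w k) := by
    intro w hw
    rcases cases_QXYZ G Q w with h | h | h | h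
    · right
      intro k hk hwk
      exact (hKY k hk).2 w h hwk.symm
    · by_cases hn : ∃ k, Reach G (Ys G Q) v k ∧ G.Adj w k
      · left
        obtain ⟨k0, hk0, hwk0⟩ := hn
        intro k hk
        exact Reach.forth hvY (hA w h) hk (Reach.back hvY (hA w h) hk0 hwk0)
      · right
        intro k hk hwk
        exact hn ⟨k, hk, hwk⟩
    · right
      intro k hk hwk
      exact hw (Relation.ReflTransGen.tail hk ⟨hwk.symm, h⟩)
    · right
      intro k hk
      exact hKZ k hk w h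
  have huniv : {k | Reach G (Ys G Q) v k} ≠ Set.univ := by
    intro hu
    obtain ⟨a, ha, -⟩ := h2
    have : a ∈ {k | Reach G (Ys G Q) v k} := by rw [hu]; trivial
    exact (hKY a this).1 ha
  have hone : ∀ k, Reach G (Ys G Q) v k → k = v := by
    intro k hk
    by_contra hkv
    exact huniv (hP _ hhom ⟨k, hk, v, Relation.ReflTransGen.refl, hkv⟩)
  obtain ⟨x', hvx', r, hr, hxr⟩ := hLD V G hP hF v Q
    (fun q hq => ⟨fun h => hvY.1 (h ▸ hq), hvY.2 q hq⟩) h2 hcocon
  rcases cases_QXYZ G Q x' with h | h | h | h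
  · exact hvY.2 x' h hvx'
  · exact hxr (h.2 r hr)
  · have hR : Reach G (Ys G Q) v x' :=
      Relation.ReflTransGen.tail Relation.ReflTransGen.refl ⟨hvx', h⟩
    have := hone x' hR
    subst this
    exact G.loopless.irrefl _ hvx'
  · exact hKZ v Relation.ReflTransGen.refl x' h hvx'.symm

end Pool.Agent.Helper56.SV
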